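import Pool.Agent.Work.MP_f41da7_an.Zeros

set_option autoImplicit false

/-!
# The zeros on the imaginary axis
-/

namespace Pool.Agent.BesselCex

open Complex Filter Topology Set

/-- The restriction to the imaginary axis. -/
noncomputable def g (y : ℝ) : ℝ :=
  (y ^ 3 + 9 / 4 * y) * Real.sinh y - (3 / 2 * y ^ 2 + 15 / 8) * Real.cosh y

/-- Its derivative. -/
noncomputable def g' (y : ℝ) : ℝ :=
  (3 / 2 * y ^ 2 + 3 / 8) * Real.sinh y + (y ^ 3 - 3 / 4 * y) * Real.cosh y

theorem F_imag (y : ℝ) : F (y * Complex.I) = (g y : ℂ) := by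
  unfold F g
  rw [Complex.sin_mul_I, Complex.cos_mul_I]
  push_cast
  have hI : Complex.I ^ 2 = -1 := Complex.I_sq
  linear_combination (((y : ℂ) ^ 3 * (Complex.I ^ 2 - 1) - 9 / 4 * y) * Complex.sinh y
    + 3 / 2 * (y : ℂ) ^ 2 * Complex.cosh y) * hI

theorem g_deriv (y : ℝ) : HasDerivAt g (g' y) y := by
  unfold g
  have h1 : HasDerivAt (fun y : ℝ => y ^ 3 + 9 / 4 * y) (3 * y ^ 2 + 9 / 4) y := by
    have := ((hasDerivAt_id y).pow 3).add ((hasDerivAt_id y).const_mul (9 / 4))
    refine this.congr_deriv ?_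
    simp
  have h2 : HasDerivAt (fun y : ℝ => 3 / 2 * y ^ 2 + 15 / 8) (3 * y) y := by
    have := (((hasDerivAt_id y).pow 2).const_mul (3 / 2)).add_const (15 / 8)
    refine this.congr_deriv ?_
    simp
    ring
  have h3 := (h1.mul (Real.hasDerivAt_sinh y)).sub (h2.mul (Real.hasDerivAt_cosh y))
  refine h3.congr_deriv ?_
  unfold g'
  ring

theorem E_pos {y : ℝ} (hy : 0 ≤ y) : 0 < y * g' y - 2 * g y := by
  have h1 : y * g' y - 2 * g y = (y ^ 4 + 9 / 4 * y ^ 2 + 15 / 4) * Real.cosh y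
      - (1 / 2 * y ^ 3 + 33 / 8 * y) * Real.sinh y := by
    unfold g g'; ring
  rw [h1]
  have h2 : Real.sinh y < Real.cosh y := Real.sinh_lt_cosh y
  have h3 : 0 < Real.cosh y := Real.cosh_pos y
  have h4 : 0 ≤ 1 / 2 * y ^ 3 + 33 / 8 * y := by positivity
  have h5 : (1 / 2 * y ^ 3 + 33 / 8 * y) * Real.sinh y ≤ (1 / 2 * y ^ 3 + 33 / 8 * y) * Real.cosh y :=
    mul_le_mul_of_nonneg_left h2.le h4
  have h6 : 0 < y ^ 4 + 9 / 4 * y ^ 2 + 15 / 4 - (1 / 2 * y ^ 3 + 33 / 8 * y) := by
    nlinarith [sq_nonneg (y ^ 2 - 1 / 4 * y - 1 / 4), sq_nonneg (y - 3 / 4), sq_nonneg (y - 1),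
      sq_nonneg y, sq_nonneg (y ^ 2)]
  have h7 := mul_pos h6 h3
  nlinarith

theorem g_neg (y : ℝ) : g (-y) = g y := by
  unfold g; rw [Real.sinh_neg, Real.cosh_neg]; ring

theorem g'_neg (y : ℝ) : g' (-y) = -g' y := by
  unfold g'; rw [Real.sinh_neg, Real.cosh_neg]; ring

/-- At a zero of `g` the derivative does not vanish. -/
theorem g'_ne {y : ℝ} (hg : g y = 0) : g' y ≠ 0 := by
  intro h0
  rcases le_total 0 y with h | h
  · have := E_pos h
    rw [h0, hg] at this
    linarith
  · have h1 := E_pos (y := -y) (by linarith)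
    rw [g_neg, g'_neg, hg, h0] at h1
    linarith

theorem exists_pos_zero : ∃ y : ℝ, 0 < y ∧ g y = 0 := by
  have hcont : ContinuousOn g (Icc 0 2) := by
    have : Continuous g := by
      unfold g
      exact ((by fun_prop : Continuous fun y : ℝ => y ^ 3 + 9 / 4 * y).mul Real.continuous_sinh).sub
        ((by fun_prop : Continuous fun y : ℝ => 3 / 2 * y ^ 2 + 15 / 8).mul Real.continuous_cosh)
    exact this.continuousOn
  have h0 : g 0 < 0 := by
    unfold g; simp
  have h2 : 0 < g 2 := by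
    unfold g
    rw [Real.sinh_eq, Real.cosh_eq]
    have h3 : (4 : ℝ) < Real.exp 2 := by
      have h4 : (2 : ℝ) < Real.exp 1 := by
        have := Real.exp_one_gt_d9; linarith
      have h5 : Real.exp 2 = Real.exp 1 * Real.exp 1 := by
        rw [← Real.exp_add]; norm_num
      rw [h5]; nlinarith
    have h6 : Real.exp (-2) < 1 / 2 := by
      rw [Real.exp_neg, inv_lt_comm₀ (Real.exp_pos 2) (by norm_num)]
      linarith
    nlinarith
  obtain ⟨y, hy, hy0⟩ := intermediate_value_Icc (by norm_num : (0 : ℝ) ≤ 2) hcont ⟨h0.le, h2.le⟩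
  refine ⟨y, lt_of_le_of_ne hy.1 ?_, hy0⟩
  rintro rfl
  linarith

/-- The positive zero is unique. -/
theorem pos_zero_unique {a b : ℝ} (ha : 0 < a) (hab : a < b) (hga : g a = 0) (hgb : g b = 0) :
    False := by
  have hderiv : ∀ y ∈ Ioo a b, HasDerivAt (fun y => g y / y ^ 2)
      ((y * g' y - 2 * g y) / y ^ 3) y := by
    intro y hy
    have hy0 : y ≠ 0 := by
      have := hy.1; linarith
    have h1 : HasDerivAt (fun y : ℝ => y ^ 2) (2 * y) y := by
      have := (hasDerivAt_id y).pow 2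
      refine this.congr_deriv ?_
      simp
    have h2 := (g_deriv y).div h1 (pow_ne_zero 2 hy0)
    refine h2.congr_deriv ?_
    field_simp
  have hcont : ContinuousOn (fun y => g y / y ^ 2) (Icc a b) := by
    refine ContinuousOn.div (fun y _ => (g_deriv y).continuousAt.continuousWithinAt)
      (by fun_prop) (fun y hy => ?_)
    have : 0 < y := lt_of_lt_of_le ha hy.1
    positivity
  obtain ⟨ξ, hξ, hξ0⟩ := exists_hasDerivAt_eq_zero hab hcont (by rw [hga, hgb]; simp) hderiv
  have hξpos : 0 < ξ := lt_trans ha hξ.1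
  have h1 := E_pos hξpos.le
  have h2 : 0 < (ξ * g' ξ - 2 * g ξ) / ξ ^ 3 := by positivity
  linarith

/-- Description of the nonreal zeros of `F`. -/
theorem nonreal_zeros : ∃ y : ℝ, 0 < y ∧ g y = 0 ∧ ∀ z : ℂ, (z.im ≠ 0 ∧ F z = 0) ↔
    (z = y * Complex.I ∨ z = -(y * Complex.I)) := by
  obtain ⟨y, hy, hgy⟩ := exists_pos_zero
  have huniq : ∀ t : ℝ, 0 < t → g t = 0 → t = y := by
    intro t ht hgt
    rcases lt_trichotomy t y with h | h | h
    · exact (pos_zero_unique ht h hgt hgy).elim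
    · exact h
    · exact (pos_zero_unique hy h hgy hgt).elim
  refine ⟨y, hy, hgy, fun z => ⟨?_, ?_⟩⟩
  · rintro ⟨him, hz⟩
    have h1 := no_nonreal hz
    have hre : z.re = 0 := by
      rw [pow_two, Complex.mul_im] at h1
      have h2 : z.re * z.im = 0 := by linarith
      rcases mul_eq_zero.1 h2 with h | h
      · exact h
      · exact absurd h him
    have hzi : z = z.im * Complex.I := by
      apply Complex.ext
      · simp [hre]
      · simp
    have hg : g z.im = 0 := by
      rw [hzi, F_imag] at hz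
      exact_mod_cast hz
    rcases lt_or_gt_of_ne him with h | h
    · right
      have h3 := huniq (-z.im) (by linarith) (by rw [g_neg]; exact hg)
      rw [hzi, ← h3]; push_cast; ring
    · left
      have h3 := huniq z.im h hg
      rw [← h3]; exact hzi
  · rintro (rfl | rfl)
    · refine ⟨by simp [hy.ne'], ?_⟩
      rw [F_imag, hgy]; simp
    · refine ⟨by simp [hy.ne'], ?_⟩
      rw [F_neg, F_imag, hgy]; simp

theorem F_deriv_ne {y : ℝ} (hg : g y = 0) : deriv F (y * Complex.I) ≠ 0 := by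
  intro h0
  have h1 : HasDerivAt F 0 (y * Complex.I) := by
    rw [← h0]; exact (F_differentiable _).hasDerivAt
  have h2 : HasDerivAt (fun s : ℂ => s * Complex.I) Complex.I (y : ℂ) := by
    simpa using (hasDerivAt_id (y : ℂ)).mul_const Complex.I
  have h3 := (h1.comp (y : ℂ) h2).comp_ofReal
  have h4 : HasDerivAt (fun t : ℝ => ((g t : ℝ) : ℂ)) (0 * Complex.I) y := by
    refine h3.congr_of_eventuallyEq (Eventually.of_forall fun t => ?_)
    simp only [Function.comp]
    rw [F_imag]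
  have h5 := (g_deriv y).ofReal_comp
  have h6 := h4.unique h5
  rw [zero_mul] at h6
  have h7 : g' y = 0 := by exact_mod_cast h6.symm
  exact g'_ne hg h7

theorem F_order {y : ℝ} (hg : g y = 0) : analyticOrderNatAt F (y * Complex.I) = 1 := by
  have hF : AnalyticAt ℂ F (y * Complex.I) := F_differentiable.analyticAt _
  have h1 : analyticOrderAt F (y * Complex.I) = 1 :=
    hF.analyticOrderAt_eq_one_of_zero_deriv_ne_zero (by rw [F_imag, hg]; simp) (F_deriv_ne hg)
  unfold analyticOrderNatAt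
  rw [h1]; rfl

end Pool.Agent.BesselCex
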