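import Pool.Agent.Work.MP_f41da7_an.Defs
import Pool.Agent.Work.MP_f41da7_an.Imag

set_option autoImplicit false

/-!
# The third derivative of the Bessel function of order minus one half
-/

namespace Pool.Agent.BesselCex

open Complex Filter Topology Set

theorem gamma_half (m : ℕ) :
    (m.factorial : ℂ) * Complex.Gamma ((m : ℂ) + 1 / 2) * 4 ^ m
      = ((2 * m).factorial : ℂ) * (Real.sqrt Real.pi : ℂ) := by
  have h := Complex.Gamma_mul_Gamma_add_half ((m : ℂ) + 1 / 2)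
  have h1 : (m : ℂ) + 1 / 2 + 1 / 2 = (m : ℂ) + 1 := by ring
  have h2 : 2 * ((m : ℂ) + 1 / 2) = ((2 * m : ℕ) : ℂ) + 1 := by push_cast; ring
  rw [h1, h2, Complex.Gamma_nat_eq_factorial, Complex.Gamma_nat_eq_factorial] at h
  have h3 : (2 : ℂ) ^ (1 - (((2 * m : ℕ) : ℂ) + 1)) = ((4 : ℂ) ^ m)⁻¹ := by
    have : (1 - (((2 * m : ℕ) : ℂ) + 1)) = -((2 * m : ℕ) : ℂ) := by ring
    rw [this, Complex.cpow_neg, Complex.cpow_natCast, pow_mul]
    norm_num
  rw [h3] at h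
  have h4 : (4 : ℂ) ^ m ≠ 0 := pow_ne_zero _ (by norm_num)
  calc (m.factorial : ℂ) * Complex.Gamma ((m : ℂ) + 1 / 2) * 4 ^ m
      = (Complex.Gamma ((m : ℂ) + 1 / 2) * (m.factorial : ℂ)) * 4 ^ m := by ring
    _ = (((2 * m).factorial : ℂ) * ((4 : ℂ) ^ m)⁻¹ * (Real.sqrt Real.pi : ℂ)) * 4 ^ m := by rw [h]
    _ = _ := by field_simp

/-- The constant. -/
noncomputable def C0 : ℂ :=
  Complex.exp ((Real.log (1 / 2) : ℂ) * (-1 / 2)) / (Real.sqrt Real.pi : ℂ)

theorem C0_ne : C0 ≠ 0 := by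
  unfold C0
  refine div_ne_zero (Complex.exp_ne_zero _) ?_
  have : (0 : ℝ) < Real.sqrt Real.pi := Real.sqrt_pos.2 Real.pi_pos
  exact_mod_cast this.ne'

theorem bessel_half {z : ℂ} (hz : z ≠ 0) :
    besselJ (-1 / 2) z = C0 * (z ^ (-1 / 2 : ℂ) * Complex.cos z) := by
  have hz2 : z / 2 ≠ 0 := div_ne_zero hz two_ne_zero
  have hpi : (Real.sqrt Real.pi : ℂ) ≠ 0 := by
    have : (0 : ℝ) < Real.sqrt Real.pi := Real.sqrt_pos.2 Real.pi_pos
    exact_mod_cast this.ne'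
  have hpow : (z / 2) ^ (-1 / 2 : ℂ)
      = Complex.exp ((Real.log (1 / 2) : ℂ) * (-1 / 2)) * z ^ (-1 / 2 : ℂ) := by
    have h1 : z / 2 = ((1 / 2 : ℝ) : ℂ) * z := by push_cast; ring
    rw [Complex.cpow_def_of_ne_zero hz2, Complex.cpow_def_of_ne_zero hz, ← Complex.exp_add, h1,
      Complex.log_ofReal_mul (by norm_num) hz]
    congr 1; ring
  have hterm : ∀ m : ℕ, ((-1) ^ m / ((m.factorial : ℂ)
      * Complex.Gamma (((-1 / 2 : ℝ) : ℂ) + m + 1))) * (z / 2) ^ (((-1 / 2 : ℝ) : ℂ) + 2 * m)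
      = ((z / 2) ^ (-1 / 2 : ℂ) / (Real.sqrt Real.pi : ℂ))
        * ((-1) ^ m * z ^ (2 * m) / ((2 * m).factorial : ℂ)) := by
    intro m
    have h1 : ((-1 / 2 : ℝ) : ℂ) + m + 1 = (m : ℂ) + 1 / 2 := by push_cast; ring
    have h2 : ((-1 / 2 : ℝ) : ℂ) + 2 * m = (-1 / 2 : ℂ) + ((2 * m : ℕ) : ℂ) := by push_cast; ring
    rw [h1, h2, Complex.cpow_add _ _ hz2, Complex.cpow_natCast]
    have h3 := gamma_half m
    have hf : ((2 * m).factorial : ℂ) ≠ 0 := by exact_mod_cast (Nat.factorial_pos _).ne'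
    have h4 : (4 : ℂ) ^ m ≠ 0 := pow_ne_zero _ (by norm_num)
    have h5 : (m.factorial : ℂ) * Complex.Gamma ((m : ℂ) + 1 / 2) ≠ 0 := by
      intro h0
      rw [h0, zero_mul] at h3
      exact mul_ne_zero hf hpi h3.symm
    have h6 : (z / 2) ^ (2 * m) = z ^ (2 * m) / 4 ^ m := by
      rw [div_pow, pow_mul 2 2 m]; norm_num
    rw [h6]
    have h7 : 1 / ((m.factorial : ℂ) * Complex.Gamma ((m : ℂ) + 1 / 2))
        = 4 ^ m / (((2 * m).factorial : ℂ) * (Real.sqrt Real.pi : ℂ)) := by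
      rw [div_eq_div_iff h5 (mul_ne_zero hf hpi), one_mul, ← h3]; ring
    calc ((-1) ^ m / ((m.factorial : ℂ) * Complex.Gamma ((m : ℂ) + 1 / 2)))
          * ((z / 2) ^ (-1 / 2 : ℂ) * (z ^ (2 * m) / 4 ^ m))
        = (1 / ((m.factorial : ℂ) * Complex.Gamma ((m : ℂ) + 1 / 2)))
          * ((-1) ^ m * (z / 2) ^ (-1 / 2 : ℂ) * (z ^ (2 * m) / 4 ^ m)) := by ring
      _ = _ := by
        rw [h7]; field_simp
  unfold besselJ
  simp_rw [hterm]
  rw [tsum_mul_left, ← Complex.cos_eq_tsum, hpow]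
  unfold C0
  ring

theorem deriv_step {f h : ℂ → ℂ} {h' : ℂ → ℂ} (hfh : ∀ z ∈ slitPlane, f z = h z)
    (hd : ∀ z ∈ slitPlane, HasDerivAt h (h' z) z) : ∀ z ∈ slitPlane, deriv f z = h' z := by
  intro z hz
  have h1 : f =ᶠ[𝓝 z] h := by
    filter_upwards [isOpen_slitPlane.mem_nhds hz] with w hw
    exact hfh w hw
  exact ((hd z hz).congr_of_eventuallyEq h1).deriv

theorem hasDerivAt_term {a : ℂ} {p p' q : ℂ → ℂ} (hp : ∀ z, HasDerivAt p (p' z) z)
    (hq : ∀ z, q z = a * p z + z * p' z) (C : ℂ) {z : ℂ} (hz : z ∈ slitPlane) :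
    HasDerivAt (fun z => C * (z ^ a * p z)) (C * (z ^ (a - 1) * q z)) z := by
  have hz0 : z ≠ 0 := slitPlane_ne_zero hz
  have h1 : HasDerivAt (fun z : ℂ => z ^ a) (a * z ^ (a - 1)) z := by
    have := (hasDerivAt_id z).cpow_const (c := a) hz
    simpa using this
  have h2 := (h1.mul (hp z)).const_mul C
  refine h2.congr_deriv ?_
  have h3 : z ^ a = z ^ (a - 1) * z := by
    rw [Complex.cpow_sub _ _ hz0, Complex.cpow_one]; field_simp
  rw [h3, hq]; ring

theorem bessel_third {z : ℂ} (hz : z ∈ slitPlane) :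
    iteratedDeriv 3 (besselJ (-1 / 2)) z = z ^ (((-1 / 2 : ℝ) : ℂ) - (3 : ℕ)) * (C0 * F z) := by
  -- the successive numerators
  have hcos : ∀ z : ℂ, HasDerivAt Complex.cos (-Complex.sin z) z := Complex.hasDerivAt_cos
  have hsin : ∀ z : ℂ, HasDerivAt Complex.sin (Complex.cos z) z := Complex.hasDerivAt_sin
  set p1 : ℂ → ℂ := fun z => (-1 / 2) * Complex.cos z + z * (-Complex.sin z) with hp1
  have hp1d : ∀ z, HasDerivAt p1 (-(1 / 2) * Complex.sin z - z * Complex.cos z) z := by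
    intro z
    have h := ((hcos z).const_mul (-1 / 2)).add ((hasDerivAt_id z).mul (hsin z).neg)
    refine h.congr_deriv ?_
    simp only [id, Pi.neg_apply]; ring
  set p2 : ℂ → ℂ := fun z => (-1 / 2 - 1) * p1 z
    + z * (-(1 / 2) * Complex.sin z - z * Complex.cos z) with hp2
  have hp2e : ∀ z, p2 z = z * Complex.sin z - z ^ 2 * Complex.cos z + 3 / 4 * Complex.cos z := by
    intro z; rw [hp2, hp1]; ring
  have hp2d : ∀ z, HasDerivAt p2 (1 / 4 * Complex.sin z - z * Complex.cos z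
      + z ^ 2 * Complex.sin z) z := by
    intro z
    have h := (((hasDerivAt_id z).mul (hsin z)).sub (((hasDerivAt_id z).pow 2).mul (hcos z))).add
      ((hcos z).const_mul (3 / 4))
    have h' : HasDerivAt (fun z => z * Complex.sin z - z ^ 2 * Complex.cos z
        + 3 / 4 * Complex.cos z) (1 / 4 * Complex.sin z - z * Complex.cos z
      + z ^ 2 * Complex.sin z) z := by
      refine HasDerivAt.congr_deriv (f := fun z : ℂ => z * Complex.sin z - z ^ 2 * Complex.cos z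
        + 3 / 4 * Complex.cos z) h ?_
      simp only [id, Nat.cast_ofNat, Pi.pow_apply]
      ring
    have hfun : p2 = fun z => z * Complex.sin z - z ^ 2 * Complex.cos z
        + 3 / 4 * Complex.cos z := funext hp2e
    rw [hfun]; exact h'
  have h0 : ∀ z ∈ slitPlane, besselJ (-1 / 2) z = C0 * (z ^ (-1 / 2 : ℂ) * Complex.cos z) :=
    fun z hz => bessel_half (slitPlane_ne_zero hz)
  have h1 := deriv_step h0 (fun z hz => hasDerivAt_term hcos (q := p1) (fun z => rfl) C0 hz)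
  have h2 := deriv_step h1 (fun z hz => hasDerivAt_term hp1d (q := p2) (fun z => by
    rw [hp2]) C0 hz)
  have h3 := deriv_step h2 (fun z hz => hasDerivAt_term hp2d (q := F) (fun z => by
    rw [hp2e]; unfold F; ring) C0 hz)
  have h4 := h3 z hz
  rw [iteratedDeriv_succ, iteratedDeriv_succ, iteratedDeriv_one, h4]
  have h5 : (-1 / 2 : ℂ) - 1 - 1 - 1 = ((-1 / 2 : ℝ) : ℂ) - (3 : ℕ) := by push_cast; ring
  rw [h5]; ring

end Pool.Agent.BesselCex
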