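import Mathlib

set_option autoImplicit false

/-!
# Bessel functions and the zeros of their derivatives
-/

namespace Pool.Agent.BesselCex

/-- The Bessel function of the first kind `J_ν` (principal branch of the power):
`∑ (-1)^m / (m! Γ(ν + m + 1)) (z / 2)^(ν + 2 m)`. -/
noncomputable def besselJ (ν : ℝ) (z : ℂ) : ℂ :=
  ∑' m : ℕ, ((-1) ^ m / ((m.factorial : ℂ) * Complex.Gamma ((ν : ℂ) + m + 1)))
    * (z / 2) ^ ((ν : ℂ) + 2 * m)

/-- `G` is the even entire function `G_{ν,n}` with `J_ν^{(n)}(z) = z^(ν - n) G(z)`. -/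
structure IsG (ν : ℝ) (n : ℕ) (G : ℂ → ℂ) : Prop where
  entire : Differentiable ℂ G
  even : ∀ z, G (-z) = G z
  eq : ∀ z ∈ Complex.slitPlane, iteratedDeriv n (besselJ ν) z = z ^ ((ν : ℂ) - n) * G z

open Classical in
/-- The function `G` has exactly `N` nonreal zeros, and exactly `M` purely imaginary nonreal
zeros, both counted with multiplicity. -/
def HasNonrealCount (G : ℂ → ℂ) (N M : ℕ) : Prop :=
  ∃ S : Finset ℂ, (∀ z, z ∈ S ↔ z.im ≠ 0 ∧ G z = 0) ∧
    ∑ z ∈ S, analyticOrderNatAt G z = N ∧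
    ∑ z ∈ S.filter (fun z => z.re = 0), analyticOrderNatAt G z = M

end Pool.Agent.BesselCex
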