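import Mathlib

set_option autoImplicit false

/-!
# The nonreal zeros of an elementary entire function
-/

namespace Pool.Agent.BesselCex

open Complex Filter Topology Set

/-- The entire function `(z³ - 9z/4) sin z + (3z²/2 - 15/8) cos z`. -/
noncomputable def F (z : ℂ) : ℂ :=
  (z ^ 3 - 9 / 4 * z) * Complex.sin z + (3 / 2 * z ^ 2 - 15 / 8) * Complex.cos z

theorem F_conj (z : ℂ) : F (starRingEnd ℂ z) = starRingEnd ℂ (F z) := by
  unfold F
  rw [Complex.sin_conj, Complex.cos_conj]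
  simp only [map_add, map_mul, map_sub, map_pow, map_div₀, map_ofNat]

theorem F_neg (z : ℂ) : F (-z) = F z := by
  unfold F
  rw [Complex.sin_neg, Complex.cos_neg]
  ring

theorem F_differentiable : Differentiable ℂ F := by
  unfold F
  fun_prop

/-- Lagrange identity. -/
theorem lagrange (z z' : ℂ) :
    (z ^ 2 - z' ^ 2) * ∫ t in (0 : ℝ)..1, Complex.cos (z * t) * Complex.cos (z' * t)
      = z * Complex.sin z * Complex.cos z' - z' * Complex.sin z' * Complex.cos z := by
  have hderiv : ∀ s : ℂ, HasDerivAt (fun s : ℂ => z * Complex.sin (z * s) * Complex.cos (z' * s)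
      - z' * Complex.sin (z' * s) * Complex.cos (z * s))
      ((z ^ 2 - z' ^ 2) * (Complex.cos (z * s) * Complex.cos (z' * s))) s := by
    intro s
    have h1 : HasDerivAt (fun s : ℂ => z * s) z s := by
      simpa using (hasDerivAt_id s).const_mul z
    have h2 : HasDerivAt (fun s : ℂ => z' * s) z' s := by
      simpa using (hasDerivAt_id s).const_mul z'
    have h3 := (Complex.hasDerivAt_sin (z * s)).comp s h1
    have h4 := (Complex.hasDerivAt_sin (z' * s)).comp s h2
    have h5 := (Complex.hasDerivAt_cos (z * s)).comp s h1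
    have h6 := (Complex.hasDerivAt_cos (z' * s)).comp s h2
    have h7 := (((h3.const_mul z).mul h6).sub ((h4.const_mul z').mul h5))
    refine HasDerivAt.congr_deriv (f := fun s : ℂ => z * Complex.sin (z * s) * Complex.cos (z' * s)
      - z' * Complex.sin (z' * s) * Complex.cos (z * s)) h7 ?_
    simp only [Function.comp]
    ring
  have hreal : ∀ t ∈ uIcc (0 : ℝ) 1, HasDerivAt (fun t : ℝ =>
      z * Complex.sin (z * t) * Complex.cos (z' * t)
      - z' * Complex.sin (z' * t) * Complex.cos (z * t))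
      ((z ^ 2 - z' ^ 2) * (Complex.cos (z * t) * Complex.cos (z' * t))) t :=
    fun t _ => (hderiv t).comp_ofReal
  have hcont : Continuous fun t : ℝ =>
      (z ^ 2 - z' ^ 2) * (Complex.cos (z * t) * Complex.cos (z' * t)) := by fun_prop
  have h := intervalIntegral.integral_eq_sub_of_hasDerivAt hreal (hcont.intervalIntegrable _ _)
  rw [← intervalIntegral.integral_const_mul, h]
  simp

theorem identity {z z' : ℂ} (hz : F z = 0) (hz' : F z' = 0) (hne : z ^ 2 ≠ z' ^ 2) :
    (z ^ 2 - 9 / 4) * (z' ^ 2 - 9 / 4)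
      * ∫ t in (0 : ℝ)..1, Complex.cos (z * t) * Complex.cos (z' * t)
      = 3 / 2 * Complex.cos z * Complex.cos z' := by
  have h := lagrange z z'
  have hw : z ^ 2 - z' ^ 2 ≠ 0 := sub_ne_zero.2 hne
  apply mul_left_cancel₀ hw
  unfold F at hz hz'
  linear_combination (z ^ 2 - 9 / 4) * (z' ^ 2 - 9 / 4) * h
    + (z' ^ 2 - 9 / 4) * Complex.cos z' * hz - (z ^ 2 - 9 / 4) * Complex.cos z * hz'

/-- Real version. -/
noncomputable def Fr (x : ℝ) : ℝ :=
  (x ^ 3 - 9 / 4 * x) * Real.sin x + (3 / 2 * x ^ 2 - 15 / 8) * Real.cos x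

theorem F_ofReal (x : ℝ) : F x = (Fr x : ℂ) := by
  unfold F Fr
  push_cast
  ring

theorem exists_real_zero : ∃ x : ℝ, 7 / 5 < x ∧ x < 3 / 2 ∧ Fr x = 0 := by
  have hpi := Real.pi_gt_d2
  have hpi2 := Real.pi_lt_d4
  have hcont : ContinuousOn Fr (Icc (7 / 5) (3 / 2)) := by
    unfold Fr; fun_prop
  have h1 : Fr (7 / 5) < 0 := by
    unfold Fr
    have hs : Real.sin (7 / 5) = Real.cos (Real.pi / 2 - 7 / 5) := by
      rw [Real.cos_pi_div_two_sub]
    have hc : Real.cos (7 / 5) = Real.sin (Real.pi / 2 - 7 / 5) := by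
      rw [Real.sin_pi_div_two_sub]
    have hd0 : 0 < Real.pi / 2 - 7 / 5 := by linarith
    have hd1 : Real.pi / 2 - 7 / 5 < 171 / 1000 := by linarith
    have h2 := Real.one_sub_sq_div_two_le_cos (x := Real.pi / 2 - 7 / 5)
    have h3 := Real.sin_le hd0.le
    rw [hs, hc]
    have h4 : (98 / 100 : ℝ) ≤ Real.cos (Real.pi / 2 - 7 / 5) := by nlinarith
    have h5 : Real.sin (Real.pi / 2 - 7 / 5) ≤ 171 / 1000 := by linarith
    nlinarith
  have h2 : 0 < Fr (3 / 2) := by
    unfold Fr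
    have hc : 0 < Real.cos (3 / 2) := Real.cos_pos_of_mem_Ioo ⟨by linarith, by linarith⟩
    nlinarith
  obtain ⟨x, hx, hx0⟩ := intermediate_value_Icc (by norm_num : (7 / 5 : ℝ) ≤ 3 / 2) hcont
    ⟨h1.le, h2.le⟩
  refine ⟨x, lt_of_le_of_ne hx.1 ?_, lt_of_le_of_ne hx.2 ?_, hx0⟩
  · rintro rfl; linarith
  · rintro rfl; linarith

theorem real_zero_negative {x : ℝ} (h1 : 7 / 5 < x) (h2 : x < 3 / 2) (h3 : Fr x = 0) :
    (x ^ 2 - 9 / 4) ^ 2 < 3 / 2 * Real.cos x ^ 2 := by
  have hpi := Real.pi_gt_d2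
  have hpi2 := Real.pi_lt_d4
  unfold Fr at h3
  have hs : Real.sin x = Real.cos (Real.pi / 2 - x) := by rw [Real.cos_pi_div_two_sub]
  have hd0 : 0 < Real.pi / 2 - x := by linarith
  have hd1 : Real.pi / 2 - x < 171 / 1000 := by linarith
  have h4 := Real.one_sub_sq_div_two_le_cos (x := Real.pi / 2 - x)
  have h5 : (98 / 100 : ℝ) ≤ Real.sin x := by rw [hs]; nlinarith
  have h6 : (9604 / 10000 : ℝ) ≤ Real.sin x ^ 2 := by nlinarith
  set d : ℝ := x ^ 2 - 9 / 4 with hd
  have hx2 : (49 / 25 : ℝ) < x ^ 2 := by nlinarith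
  have hx3 : x ^ 2 < 9 / 4 := by nlinarith
  have hd0' : d < 0 := by linarith
  -- the equation squared
  have h7 : x * d * Real.sin x = -((3 / 2 * x ^ 2 - 15 / 8) * Real.cos x) := by
    rw [hd]; linarith
  have h8 : x ^ 2 * d ^ 2 * Real.sin x ^ 2 = (3 / 2 * x ^ 2 - 15 / 8) ^ 2 * Real.cos x ^ 2 := by
    have h7' : (x * d * Real.sin x) ^ 2 = (-((3 / 2 * x ^ 2 - 15 / 8) * Real.cos x)) ^ 2 := by
      rw [h7]
    linarith
  have hY0 : 0 < 3 / 2 * x ^ 2 - 15 / 8 := by linarith
  have hY1 : 3 / 2 * x ^ 2 - 15 / 8 < 3 / 2 := by linarith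
  have hY : (3 / 2 * x ^ 2 - 15 / 8) ^ 2 < 9 / 4 := by nlinarith
  have hX : (14 / 5 : ℝ) < 3 / 2 * (x ^ 2 * Real.sin x ^ 2) := by nlinarith
  have hdne : d ≠ 0 := hd0'.ne
  have hd2 : 0 < d ^ 2 := by positivity
  by_contra hcon
  push Not at hcon
  -- 3/2 cos² ≤ d²
  have h9 : (3 / 2 * x ^ 2 - 15 / 8) ^ 2 * (3 / 2 * Real.cos x ^ 2)
      ≤ (3 / 2 * x ^ 2 - 15 / 8) ^ 2 * d ^ 2 := mul_le_mul_of_nonneg_left hcon (sq_nonneg _)
  have h10 : (3 / 2 * (x ^ 2 * Real.sin x ^ 2)) * d ^ 2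
      = (3 / 2 * x ^ 2 - 15 / 8) ^ 2 * (3 / 2 * Real.cos x ^ 2) := by linarith
  have h11 : (14 / 5 : ℝ) * d ^ 2 < (3 / 2 * (x ^ 2 * Real.sin x ^ 2)) * d ^ 2 :=
    mul_lt_mul_of_pos_right hX hd2
  have h12 : (3 / 2 * x ^ 2 - 15 / 8) ^ 2 * d ^ 2 < 9 / 4 * d ^ 2 :=
    mul_lt_mul_of_pos_right hY hd2
  nlinarith

theorem no_nonreal {z : ℂ} (hz : F z = 0) : (z ^ 2).im = 0 := by
  by_contra him
  obtain ⟨x, hx1, hx2, hx0⟩ := exists_real_zero
  have hneg := real_zero_negative hx1 hx2 hx0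
  have hFx : F x = 0 := by rw [F_ofReal, hx0]; simp
  have hFc : F (starRingEnd ℂ z) = 0 := by rw [F_conj, hz, map_zero]
  -- constants
  set c : ℂ := Complex.cos z with hc
  set d : ℂ := z ^ 2 - 9 / 4 with hd
  set c1 : ℝ := Real.cos x with hc1
  set d1 : ℝ := x ^ 2 - 9 / 4 with hd1
  have hd0 : d ≠ 0 := by
    intro h0
    apply him
    have : z ^ 2 = 9 / 4 := by rw [hd] at h0; exact sub_eq_zero.1 h0
    rw [this]
    have : (9 / 4 : ℂ) = ((9 / 4 : ℝ) : ℂ) := by push_cast; ring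
    rw [this, Complex.ofReal_im]
  have hd10 : d1 ≠ 0 := by
    have : d1 < 0 := by rw [hd1]; nlinarith
    exact this.ne
  have hc10 : c1 ≠ 0 := by
    intro h0
    rw [h0] at hneg
    nlinarith [sq_nonneg d1]
  have hc0 : c ≠ 0 := by
    intro h0
    have hs : z * d * Complex.sin z = 0 := by
      have h1 := hz
      unfold F at h1
      rw [← hc, h0] at h1
      rw [hd]; linear_combination h1
    have hz0 : z ≠ 0 := by
      rintro rfl
      apply him; simp
    have hsin : Complex.sin z = 0 := by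
      rcases mul_eq_zero.1 hs with h | h
      · exact absurd h (mul_ne_zero hz0 hd0)
      · exact h
    have := Complex.sin_sq_add_cos_sq z
    rw [hsin, ← hc, h0] at this
    norm_num at this
  have hsq_conj : (starRingEnd ℂ z) ^ 2 = starRingEnd ℂ (z ^ 2) := by rw [map_pow]
  have hne1 : z ^ 2 ≠ (starRingEnd ℂ z) ^ 2 := by
    rw [hsq_conj]
    intro h
    exact him (Complex.conj_eq_iff_im.1 h.symm)
  have hne2 : z ^ 2 ≠ (x : ℂ) ^ 2 := by
    intro h
    apply him
    rw [h, ← Complex.ofReal_pow, Complex.ofReal_im]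
  have hne3 : (x : ℂ) ^ 2 ≠ (starRingEnd ℂ z) ^ 2 := by
    rw [hsq_conj]
    intro h
    apply hne2
    have := congrArg (starRingEnd ℂ) h
    rw [Complex.conj_conj, ← Complex.ofReal_pow, Complex.conj_ofReal, Complex.ofReal_pow] at this
    exact this.symm
  have hconjc : Complex.cos (starRingEnd ℂ z) = starRingEnd ℂ c := by rw [Complex.cos_conj]
  have hconjd : (starRingEnd ℂ z) ^ 2 - 9 / 4 = starRingEnd ℂ d := by
    rw [hd, map_sub, map_pow, map_div₀, map_ofNat, map_ofNat]
  have hd1c : (x : ℂ) ^ 2 - 9 / 4 = (d1 : ℂ) := by rw [hd1]; push_cast; ring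
  have hc1c : Complex.cos (x : ℂ) = (c1 : ℂ) := by rw [hc1, Complex.ofReal_cos]
  have I1 := identity hz hFc hne1
  have I2 := identity hz hFx hne2
  have I3 := identity hFx hFc hne3
  rw [hconjc, hconjd] at I1 I3
  rw [hd1c, hc1c] at I2 I3
  rw [← hd] at I1 I2
  rw [← hc] at I1 I2
  -- the test function
  set α : ℂ := c * d1 / (d * c1) with hα
  set A : ℂ := ∫ t in (0 : ℝ)..1, Complex.cos (z * t) * Complex.cos (starRingEnd ℂ z * t) with hA
  set B : ℂ := ∫ t in (0 : ℝ)..1, Complex.cos (z * t) * Complex.cos ((x : ℂ) * t) with hB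
  set B' : ℂ := ∫ t in (0 : ℝ)..1, Complex.cos ((x : ℂ) * t) * Complex.cos (starRingEnd ℂ z * t)
    with hB'
  set D : ℂ := ∫ t in (0 : ℝ)..1, Complex.cos ((x : ℂ) * t) * Complex.cos ((x : ℂ) * t) with hD
  have hcd : starRingEnd ℂ d ≠ 0 := (map_ne_zero _).2 hd0
  have hc1C : (c1 : ℂ) ≠ 0 := by exact_mod_cast hc10
  have hd1C : (d1 : ℂ) ≠ 0 := by exact_mod_cast hd10
  have hconjα : starRingEnd ℂ α = starRingEnd ℂ c * d1 / (starRingEnd ℂ d * c1) := by
    rw [hα, map_div₀, map_mul, map_mul, Complex.conj_ofReal, Complex.conj_ofReal]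
  have hexp : (((∫ t in (0 : ℝ)..1,
      Complex.normSq (Complex.cos (z * t) - α * Complex.cos ((x : ℂ) * t)) : ℝ)) : ℂ)
      = A - starRingEnd ℂ α * B - α * B' + α * starRingEnd ℂ α * D := by
    rw [← intervalIntegral.integral_ofReal]
    have h1 : ∀ t : ℝ, ((Complex.normSq (Complex.cos (z * t) - α * Complex.cos ((x : ℂ) * t)) : ℝ) : ℂ)
        = Complex.cos (z * t) * Complex.cos (starRingEnd ℂ z * t)
          - starRingEnd ℂ α * (Complex.cos (z * t) * Complex.cos ((x : ℂ) * t))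
          - α * (Complex.cos ((x : ℂ) * t) * Complex.cos (starRingEnd ℂ z * t))
          + α * starRingEnd ℂ α * (Complex.cos ((x : ℂ) * t) * Complex.cos ((x : ℂ) * t)) := by
      intro t
      rw [Complex.normSq_eq_conj_mul_self, map_sub, map_mul, ← Complex.cos_conj,
        ← Complex.cos_conj, map_mul, map_mul, Complex.conj_ofReal, Complex.conj_ofReal]
      ring
    simp_rw [h1]
    have c1' : Continuous fun t : ℝ => Complex.cos (z * t) * Complex.cos (starRingEnd ℂ z * t) := by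
      fun_prop
    have c2' : Continuous fun t : ℝ => starRingEnd ℂ α * (Complex.cos (z * t) * Complex.cos ((x : ℂ) * t)) := by
      fun_prop
    have c3' : Continuous fun t : ℝ => α * (Complex.cos ((x : ℂ) * t) * Complex.cos (starRingEnd ℂ z * t)) := by
      fun_prop
    have c4' : Continuous fun t : ℝ => α * starRingEnd ℂ α * (Complex.cos ((x : ℂ) * t) * Complex.cos ((x : ℂ) * t)) := by
      fun_prop
    have i12 : IntervalIntegrable (fun t : ℝ =>
        Complex.cos (z * t) * Complex.cos (starRingEnd ℂ z * t)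
        - starRingEnd ℂ α * (Complex.cos (z * t) * Complex.cos ((x : ℂ) * t)))
        MeasureTheory.volume 0 1 := (c1'.sub c2').intervalIntegrable _ _
    have i123 : IntervalIntegrable (fun t : ℝ =>
        Complex.cos (z * t) * Complex.cos (starRingEnd ℂ z * t)
        - starRingEnd ℂ α * (Complex.cos (z * t) * Complex.cos ((x : ℂ) * t))
        - α * (Complex.cos ((x : ℂ) * t) * Complex.cos (starRingEnd ℂ z * t)))
        MeasureTheory.volume 0 1 := ((c1'.sub c2').sub c3').intervalIntegrable _ _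
    rw [intervalIntegral.integral_add i123 (c4'.intervalIntegrable _ _),
      intervalIntegral.integral_sub i12 (c3'.intervalIntegrable _ _),
      intervalIntegral.integral_sub (c1'.intervalIntegrable _ _) (c2'.intervalIntegrable _ _),
      intervalIntegral.integral_const_mul, intervalIntegral.integral_const_mul,
      intervalIntegral.integral_const_mul]
  -- evaluate
  have hAval : A = 3 / 2 * (c * starRingEnd ℂ c) / (d * starRingEnd ℂ d) := by
    rw [eq_div_iff (mul_ne_zero hd0 hcd)]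
    linear_combination I1
  have hBval : starRingEnd ℂ α * B = A := by
    have : B = 3 / 2 * c * c1 / (d * d1) := by
      rw [eq_div_iff (mul_ne_zero hd0 hd1C)]
      linear_combination I2
    rw [this, hconjα, hAval]
    field_simp
  have hB'val : α * B' = A := by
    have : B' = 3 / 2 * c1 * starRingEnd ℂ c / (d1 * starRingEnd ℂ d) := by
      rw [eq_div_iff (mul_ne_zero hd1C hcd)]
      linear_combination I3
    rw [this, hα, hAval]
    field_simp
  -- the square integral of the real function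
  have hDreal : D = ((∫ t in (0 : ℝ)..1, Real.cos (x * t) ^ 2 : ℝ) : ℂ) := by
    rw [hD, ← intervalIntegral.integral_ofReal]
    refine intervalIntegral.integral_congr fun t _ => ?_
    rw [← Complex.ofReal_mul x t, ← Complex.ofReal_cos, ← Complex.ofReal_mul]
    congr 1; ring
  set Dr : ℝ := ∫ t in (0 : ℝ)..1, Real.cos (x * t) ^ 2 with hDr
  have hDr1 : Dr ≤ 1 := by
    have hc2 : Continuous fun t : ℝ => Real.cos (x * t) ^ 2 := by fun_prop
    have h1 := intervalIntegral.integral_mono_on (μ := MeasureTheory.volume)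
      (zero_le_one : (0 : ℝ) ≤ 1)
      (hc2.intervalIntegrable 0 1) ((continuous_const (y := (1 : ℝ))).intervalIntegrable 0 1)
      (fun t _ => by
        have := Real.cos_sq_le_one (x * t)
        exact this)
    simpa using h1
  set N : ℝ := Complex.normSq c / Complex.normSq d with hN
  have hN0 : 0 < N := div_pos (Complex.normSq_pos.2 hc0) (Complex.normSq_pos.2 hd0)
  have hAN : A = ((3 / 2 * N : ℝ) : ℂ) := by
    rw [hAval, hN]
    push_cast
    rw [Complex.normSq_eq_conj_mul_self, Complex.normSq_eq_conj_mul_self]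
    field_simp
  have hαN : α * starRingEnd ℂ α = ((N * d1 ^ 2 / c1 ^ 2 : ℝ) : ℂ) := by
    rw [hconjα, hα, hN]
    push_cast
    rw [Complex.normSq_eq_conj_mul_self, Complex.normSq_eq_conj_mul_self]
    field_simp
  rw [hBval, hB'val, hαN, hDreal, hAN] at hexp
  have hexp2 : (∫ t in (0 : ℝ)..1,
      Complex.normSq (Complex.cos (z * t) - α * Complex.cos ((x : ℂ) * t)))
      = 3 / 2 * N - 3 / 2 * N - 3 / 2 * N + N * d1 ^ 2 / c1 ^ 2 * Dr := by
    exact_mod_cast hexp
  have hnn : 0 ≤ ∫ t in (0 : ℝ)..1,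
      Complex.normSq (Complex.cos (z * t) - α * Complex.cos ((x : ℂ) * t)) :=
    intervalIntegral.integral_nonneg zero_le_one fun t _ => Complex.normSq_nonneg _
  rw [hexp2] at hnn
  have hc1sq : 0 < c1 ^ 2 := by positivity
  have hDr0 : 0 ≤ Dr := intervalIntegral.integral_nonneg zero_le_one fun t _ => sq_nonneg _
  have hk : d1 ^ 2 / c1 ^ 2 < 3 / 2 := by
    rw [div_lt_iff₀ hc1sq]; exact hneg
  have h13 : N * d1 ^ 2 / c1 ^ 2 * Dr = N * ((d1 ^ 2 / c1 ^ 2) * Dr) := by ring
  rw [h13] at hnn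
  have h14 : (d1 ^ 2 / c1 ^ 2) * Dr ≤ (d1 ^ 2 / c1 ^ 2) * 1 :=
    mul_le_mul_of_nonneg_left hDr1 (by positivity)
  nlinarith

end Pool.Agent.BesselCex
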